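import Mathlib
import Pool.Agent.Results.MP_807794_lc.ExitAntichains

/-!
# MP_b963f4_lc: under `◇⁺` almost Suslin trees do not carry Suslin uniformizations

Under `2 ^ ℵ₀ < 2 ^ ℵ₁`, which follows from `◇⁺`, for every almost Suslin Aronszajn tree `T` and
every ladder system `C` there is a monochromatic colouring of `C` with two colours which is not
uniformized by any function on an uncountable downward closed subset of `T`. The proof prunes the
domain and applies the starting result `MP_807794_lc/ExitAntichains` of this repository.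
-/

set_option autoImplicit false

namespace Pool.Agent.Results.MP_b963f4_lc.NoSuslinUniformization

open Cardinal Ordinal Set
open Pool.Agent.Results.MP_807794_lc.ExitAntichains

/-- The principle `◇⁺`; the type `W` consists of the countable ordinals. -/
def DiamondPlus : Prop :=
  ∃ N : W → Set (Set W), (∀ α, (N α).Countable) ∧ ∀ X : Set W, ∃ D : Set W, IsClub D ∧
    ∀ α ∈ D, X ∩ Iio α ∈ N α ∧ D ∩ Iio α ∈ N α

/-- An Aronszajn tree: a tree of height `ω₁` with countable levels and no uncountable chain. -/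
structure IsAronszajn (T : Type) [PartialOrder T] [IsTree T] : Prop where
  ht_lt : ∀ t : T, ht t < ω_ 1
  level_nonempty : ∀ α < ω_ 1, ∃ t : T, ht t = α
  level_countable : ∀ α < ω_ 1, {t : T | ht t = α}.Countable
  chain_countable : ∀ b : Set T, IsChain (· ≤ ·) b → b.Countable

/-- `T` is almost Suslin: it has no stationary antichain. -/
def AlmostSuslin (T : Type) [PartialOrder T] [IsTree T] : Prop :=
  ∀ A : Set T, ¬ IsStationaryAntichain A

/-- A ladder system: for every countable limit ordinal `α`, the set `C α` is the range of a strictly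
increasing sequence which is cofinal in `α`. -/
def IsLadderSystem (C : Ordinal.{0} → Set Ordinal.{0}) : Prop :=
  ∀ α < ω_ 1, Order.IsSuccLimit α → ∃ e : ℕ → Ordinal.{0}, StrictMono e ∧ Set.range e = C α ∧
    (∀ n, e n < α) ∧ ∀ β < α, ∃ n, β < e n

/-- A Suslin subtree: a downward closed uncountable set without uncountable chains and without
uncountable antichains. -/
structure IsSuslinSubtree {T : Type} [PartialOrder T] (S : Set T) : Prop where
  lower : ∀ s ∈ S, ∀ u ≤ s, u ∈ S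
  uncountable : ¬ S.Countable
  chain_countable : ∀ b ⊆ S, IsChain (· ≤ ·) b → b.Countable
  antichain_countable : ∀ b ⊆ S, IsAntichain (· ≤ ·) b → b.Countable

/-- The function `h` on `S` uniformizes the monochromatic colouring of `C` with colour `c α` on
`C α`. -/
def Uniformizes {T : Type} [PartialOrder T] [IsTree T] (C : Ordinal.{0} → Set Ordinal.{0})
    (c : Ordinal.{0} → ℕ) (S : Set T) (h : T → ℕ) : Prop :=
  ∀ t ∈ S, Order.IsSuccLimit (ht t) → UniformizesAt C c h t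

/-- Every monochromatic `ω`-colouring of `C` has a Suslin `T`-uniformization. -/
def AllSuslinUniformized (T : Type) [PartialOrder T] [IsTree T]
    (C : Ordinal.{0} → Set Ordinal.{0}) : Prop :=
  ∀ c : Ordinal.{0} → ℕ, ∃ (S : Set T) (h : T → ℕ), IsSuslinSubtree S ∧ Uniformizes C c S h

/-! ### `◇⁺` implies CH -/

theorem mk_N_le (N : W → Set (Set W)) (hN : ∀ α, (N α).Countable) :
    #(⋃ α, N α : Set (Set W)) ≤ ℵ_ 1 := by
  refine (Cardinal.mk_iUnion_le_sum_mk).trans ?_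
  refine (Cardinal.sum_le_sum _ (fun _ => ℵ₀) fun α => (hN α).le_aleph0).trans ?_
  rw [Cardinal.sum_const', mk_W]
  exact (mul_le_mul' le_rfl (aleph0_le_aleph 1)).trans
    (Cardinal.mul_eq_self (aleph0_le_aleph 1)).le

theorem ch_of_diamondPlus (h : DiamondPlus) : (2 : Cardinal.{0}) ^ ℵ₀ < 2 ^ (ℵ_ 1 : Cardinal.{0}) := by
  classical
  obtain ⟨N, hN, hX⟩ := h
  have hw : ∀ n : ℕ, (n : Ordinal.{0}) < Ordinal.omega.{0} 1 := fun n =>
    (Ordinal.natCast_lt_omega0 n).trans omega0_lt_omega_one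
  let w : ℕ → W := fun n => ⟨n, hw n⟩
  have hwinj : Function.Injective w := fun m n hmn => by
    have h1 : (m : Ordinal.{0}) = (n : Ordinal.{0}) := congrArg Subtype.val hmn
    exact_mod_cast h1
  let ω' : W := ⟨Ordinal.omega0, omega0_lt_omega_one⟩
  have hlt : ∀ n, w n < ω' := fun n => Ordinal.natCast_lt_omega0 n
  have hmem : ∀ X : Set ℕ, w '' X ∈ ⋃ α, N α := by
    intro X
    obtain ⟨D, hD, hD2⟩ := hX (w '' X)
    obtain ⟨α, hα, hle⟩ := hD.isCofinal ω'
    refine mem_iUnion.2 ⟨α, ?_⟩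
    have h1 := (hD2 α hα).1
    have h2 : w '' X ∩ Iio α = w '' X := by
      rw [inter_eq_left]
      rintro _ ⟨n, -, rfl⟩
      exact (hlt n).trans_le hle
    rwa [h2] at h1
  have hinj : Function.Injective (fun X : Set ℕ => (⟨w '' X, hmem X⟩ : (⋃ α, N α : Set (Set W)))) := by
    intro X Y hXY
    have h1 : w '' X = w '' Y := congrArg Subtype.val hXY
    exact hwinj.image_injective h1
  have h1 := Cardinal.lift_mk_le_lift_mk_of_injective hinj
  have h2 : Cardinal.lift.{1} #(Set ℕ) ≤ ℵ_ 1 := by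
    refine h1.trans ?_
    rw [Cardinal.lift_id']
    exact mk_N_le N hN
  have h3 : #(Set ℕ) = 2 ^ ℵ₀ := by rw [Cardinal.mk_set, Cardinal.mk_nat]
  rw [h3] at h2
  have h4 : (2 : Cardinal.{0}) ^ ℵ₀ ≤ ℵ_ 1 := by
    have h5 : (ℵ_ 1 : Cardinal.{1}) = Cardinal.lift.{1} (ℵ_ 1 : Cardinal.{0}) := by simp
    rw [h5] at h2
    exact Cardinal.lift_le.1 h2
  exact h4.trans_lt (Cardinal.cantor _)

/-! ### pruning -/

theorem sup_lt (f : ℕ → Ordinal.{0}) (hf : ∀ n, f n < ω_ 1) : ∃ β < ω_ 1, ∀ n, f n ≤ β :=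
  ⟨⨆ n, f n, Ordinal.iSup_lt_omega_one hf, fun n => Ordinal.le_iSup f n⟩

theorem prune {T : Type} [PartialOrder T] [IsTree T] (hlev : ∀ α < ω_ 1, {t : T | ht t = α}.Countable)
    (hht : ∀ t : T, ht t < ω_ 1) (S : Set T) (hS : ∀ s ∈ S, ∀ u ≤ s, u ∈ S) (hunc : ¬ S.Countable) :
    IsSubtree {s | s ∈ S ∧ ∀ β < ω_ 1, ∃ t ∈ S, s ≤ t ∧ β ≤ ht t} := by
  classical
  -- a common bound for countably many nodes without high extensions
  have hbd : ∀ V : Set T, V.Countable → (∀ v ∈ V, ∃ β < ω_ 1, ∀ t ∈ S, v ≤ t → ht t < β) →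
      ∃ β < ω_ 1, ∀ v ∈ V, ∀ t ∈ S, v ≤ t → ht t < β := by
    intro V hV hVb
    rcases V.eq_empty_or_nonempty with rfl | hne
    · exact ⟨0, omega_pos 1, fun v hv => absurd hv (notMem_empty v)⟩
    · obtain ⟨f, rfl⟩ := hV.exists_eq_range hne
      choose b hb1 hb2 using fun n => hVb (f n) ⟨n, rfl⟩
      obtain ⟨β, hβ, hle⟩ := sup_lt b hb1
      refine ⟨β, hβ, ?_⟩
      rintro _ ⟨n, rfl⟩ t ht1 hvt
      exact (hb2 n t ht1 hvt).trans_le (hle n)
  have hhigh : ∀ β < ω_ 1, ∃ t ∈ S, β ≤ ht t := by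
    intro β hβ
    by_contra hcon
    push Not at hcon
    apply hunc
    have h1 : S ⊆ ⋃ α : {α : W // α < ⟨β, hβ⟩}, {t : T | ht t = α.1.1} := by
      intro t hts
      exact mem_iUnion.2 ⟨⟨⟨ht t, hht t⟩, hcon t hts⟩, rfl⟩
    have : Countable {α : W // α < ⟨β, hβ⟩} := countable_below _
    exact (countable_iUnion fun α => hlev _ α.1.2).mono h1
  have hnot : ∀ v ∈ S, ¬ (∀ β < ω_ 1, ∃ t ∈ S, v ≤ t ∧ β ≤ ht t) →
      ∃ β < ω_ 1, ∀ t ∈ S, v ≤ t → ht t < β := by
    intro v _ h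
    push Not at h
    exact h
  refine ⟨?_, ?_, ?_⟩
  · by_contra hcon
    rw [not_nonempty_iff_eq_empty] at hcon
    have h0 : ∀ v ∈ {t : T | t ∈ S ∧ ht t = 0}, ∃ β < ω_ 1, ∀ t ∈ S, v ≤ t → ht t < β := by
      rintro v ⟨hv, -⟩
      refine hnot v hv fun h => ?_
      have h1 : v ∈ {s | s ∈ S ∧ ∀ β < ω_ 1, ∃ t ∈ S, s ≤ t ∧ β ≤ ht t} := ⟨hv, h⟩
      rw [hcon] at h1
      exact h1
    obtain ⟨β, hβ, hβ2⟩ := hbd _ ((hlev 0 (omega_pos 1)).mono fun t ht => ht.2) h0
    obtain ⟨t, hts, hβt⟩ := hhigh β hβ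
    obtain ⟨v, hvt, hv0⟩ := exists_le_ht (t := t) (δ := 0) zero_le
    exact absurd hβt (not_le.2 (hβ2 v ⟨hS t hts v hvt, hv0⟩ t hts hvt))
  · rintro s ⟨hs, hs2⟩ u hus
    refine ⟨hS s hs u hus, fun β hβ => ?_⟩
    obtain ⟨t, h1, h2, h3⟩ := hs2 β hβ
    exact ⟨t, h1, hus.trans h2, h3⟩
  · rintro s ⟨hs, hs2⟩ β hβ
    by_contra hcon
    have hmax : max β (ht s) < ω_ 1 := max_lt hβ (hht s)
    have h0 : ∀ v ∈ {v : T | v ∈ S ∧ s ≤ v ∧ ht v = max β (ht s)},
        ∃ β < ω_ 1, ∀ t ∈ S, v ≤ t → ht t < β := by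
      rintro v ⟨hv, hsv, hvt⟩
      refine hnot v hv fun h => hcon ?_
      exact ⟨v, ⟨hv, h⟩, hsv, by rw [hvt]; exact le_max_left _ _⟩
    obtain ⟨β', hβ', hβ2⟩ := hbd _ ((hlev _ hmax).mono fun t ht => ht.2.2) h0
    obtain ⟨t, hts, hst, hle⟩ := hs2 (max β' (max β (ht s))) (max_lt hβ' hmax)
    obtain ⟨v, hvt, hv⟩ := exists_le_ht (t := t) (δ := max β (ht s)) ((le_max_right _ _).trans hle)
    have hsv : s ≤ v := le_of_ht_le hst hvt (by rw [hv]; exact le_max_right _ _)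
    exact absurd ((le_max_left _ _).trans hle) (not_le.2 (hβ2 v ⟨hS t hts v hvt, hsv, hv⟩ t hts hvt))

/-- Assume `◇⁺`, or just `2 ^ ℵ₀ < 2 ^ ℵ₁`. Let `T` be an almost Suslin Aronszajn tree and `C` a
ladder system. Then there is a monochromatic colouring of `C` with two colours which is not
uniformized by any function on an uncountable downward closed subset of `T`; so it is not true that
every monochromatic `ω`-colouring of `C` has a Suslin `T`-uniformization. -/
theorem result (hd : DiamondPlus ∨ (2 : Cardinal.{0}) ^ ℵ₀ < 2 ^ (ℵ_ 1 : Cardinal.{0}))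
    (T : Type) [PartialOrder T] [IsTree T] (hT : IsAronszajn T) (hT' : AlmostSuslin T)
    (C : Ordinal.{0} → Set Ordinal.{0}) (hC : IsLadderSystem C) :
    (∃ c : Ordinal.{0} → ℕ, (∀ α, c α = 0 ∨ c α = 1) ∧ ∀ S : Set T,
      (∀ s ∈ S, ∀ u ≤ s, u ∈ S) → ¬ S.Countable → ∀ h : T → ℕ, ¬ Uniformizes C c S h) ∧
    ¬ AllSuslinUniformized T C := by
  have hcard : (2 : Cardinal.{0}) ^ ℵ₀ < 2 ^ (ℵ_ 1 : Cardinal.{0}) := by
    rcases hd with h | h
    · exact ch_of_diamondPlus h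
    · exact h
  have hmain : ∃ c : Ordinal.{0} → ℕ, (∀ α, c α = 0 ∨ c α = 1) ∧ ∀ S : Set T,
      (∀ s ∈ S, ∀ u ≤ s, u ∈ S) → ¬ S.Countable → ∀ h : T → ℕ, ¬ Uniformizes C c S h := by
    obtain ⟨-, h2⟩ := Pool.Agent.Results.MP_807794_lc.ExitAntichains.result hcard T hT.ht_lt C (by
      intro α hα hlim
      obtain ⟨e, he1, he2, -⟩ := hC α hα hlim
      rw [← he2]
      exact Set.infinite_range_of_injective he1.injective)
    obtain ⟨c, hc1, hc2⟩ := h2 hT.level_countable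
    refine ⟨c, hc1, fun S hS hunc h hU => ?_⟩
    have hS' := prune hT.level_countable hT.ht_lt S hS hunc
    set S' : Set T := {s | s ∈ S ∧ ∀ β < ω_ 1, ∃ t ∈ S, s ≤ t ∧ β ≤ ht t} with hS'def
    obtain ⟨s, hs⟩ := hS'.nonempty
    refine hT' {t | t ∉ S' ∧ ∀ u < t, u ∈ S'} ⟨?_, ?_⟩
    · intro a ha b hb hne hle
      exact ha.1 (hb.2 a (lt_of_le_of_ne hle hne))
    · refine (hc2 S' h hS' s hs).mono ?_
      rintro δ ⟨hδ, t, -, htδ, hpred, hbad⟩
      refine ⟨t, ⟨?_, hpred⟩, htδ⟩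
      intro htS
      rcases hbad with h3 | h3
      · exact h3 htS
      · exact h3 (hU t htS.1 (by rw [htδ]; exact hδ))
  refine ⟨hmain, fun hall => ?_⟩
  obtain ⟨c, -, hc⟩ := hmain
  obtain ⟨S, h, hS, hU⟩ := hall c
  exact hc S hS.lower hS.uncountable h hU

end Pool.Agent.Results.MP_b963f4_lc.NoSuslinUniformization
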